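import Mathlib
import Pool.Agent.R159.RPartite

/-!
# `f(r) = ∞` for every `r ≥ 3`

One side is a single vertex, contained in all edges (so the hypergraph is intersecting), and
between two other sides the edges form two disjoint complete bipartite graphs `K_{m,m}`.  A
non-trivial cover cannot contain the single vertex (it is a whole side), so it contains one
class of each of the two bipartite graphs, that is at least `2m` vertices.
-/

namespace Pool.Agent.Results.MP_2c613a_co.FInfinite

open Pool.Agent.R159.RPartite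

/-- `f(r)`: the supremum of `tauStar H` over the intersecting `r`-partite hypergraphs `H` with
finite sides, with every vertex in an edge, that have a non-trivial vertex cover. -/
noncomputable def f (r : ℕ) : ℕ∞ :=
  ⨆ (V : Fin r → Type) (_ : ∀ i, Finite (V i)) (H : Set (∀ i, V i))
    (_ : Spanned H ∧ Intersecting H ∧ ∃ C, NTCover H C), tauStar H

/-- An intersecting bipartite hypergraph has no non-trivial vertex cover. -/
lemma no_cover_two (V : Fin 2 → Type) (H : Set (∀ i, V i)) (hS : Spanned H) (hI : Intersecting H)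
    (C : Finset (Σ i, V i)) : ¬ NTCover H C := by
  rintro ⟨h1, h2, h3⟩
  -- some side is a single vertex
  obtain ⟨v0, hv0⟩ := h3 0
  obtain ⟨v1, hv1⟩ := h3 1
  obtain ⟨e, he, hev⟩ := hS 0 v0
  obtain ⟨g, hg, hgv⟩ := hS 1 v1
  -- `e` is covered at side `1`, `g` is covered at side `0`
  have he1 : (⟨1, e 1⟩ : Σ i, V i) ∈ C := by
    obtain ⟨i, hi⟩ := h1 e he
    fin_cases i
    · exfalso
      apply hv0
      rw [← hev]
      exact hi
    · exact hi
  have hg0 : (⟨0, g 0⟩ : Σ i, V i) ∈ C := by
    obtain ⟨i, hi⟩ := h1 g hg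
    fin_cases i
    · exact hi
    · exfalso
      apply hv1
      rw [← hgv]
      exact hi
  obtain ⟨i, hi⟩ := hI e he g hg
  fin_cases i
  · apply hv0
    have h : e 0 = g 0 := hi
    rw [← hev, h]
    exact hg0
  · apply hv1
    have h : e 1 = g 1 := hi
    rw [← hgv, ← h]
    exact he1

/-- the sides of the example -/
def W (k m : ℕ) (i : Fin (k + 3)) : Type :=
  {x : Bool × Fin (m + 1) // x = (false, 0) ∨ i = 1 ∨ i = 2}

instance (k m : ℕ) (i : Fin (k + 3)) : Finite (W k m i) := by unfold W; infer_instance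

/-- the edges of the example -/
def HH (k m : ℕ) : Set (∀ i, W k m i) := {e | (e 1).1.1 = (e 2).1.1}

/-- the edge with given vertices on the sides `1` and `2` -/
def mk (k m : ℕ) (x y : Bool × Fin (m + 1)) : ∀ i, W k m i := fun i =>
  if h1 : i = 1 then ⟨x, Or.inr (Or.inl h1)⟩
  else if h2 : i = 2 then ⟨y, Or.inr (Or.inr h2)⟩ else ⟨(false, 0), Or.inl rfl⟩

lemma val_two' (k : ℕ) : ((2 : Fin (k + 3)) : ℕ) = 2 := by
  show 2 % (k + 3) = 2
  exact Nat.mod_eq_of_lt (by omega)

lemma val_one' (k : ℕ) : ((1 : Fin (k + 3)) : ℕ) = 1 := by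
  show 1 % (k + 3) = 1
  exact Nat.mod_eq_of_lt (by omega)

lemma two_ne_one' (k : ℕ) : (2 : Fin (k + 3)) ≠ 1 := by
  intro h
  have h1 : ((2 : Fin (k + 3)) : ℕ) = 2 := val_two' k
  have h2 : ((1 : Fin (k + 3)) : ℕ) = 1 := val_one' k
  rw [h, h2] at h1
  omega

lemma zero_ne_one' (k : ℕ) : (0 : Fin (k + 3)) ≠ 1 := by
  intro h
  have h2 : ((1 : Fin (k + 3)) : ℕ) = 1 := val_one' k
  rw [← h] at h2
  simp at h2

lemma zero_ne_two' (k : ℕ) : (0 : Fin (k + 3)) ≠ 2 := by
  intro h
  have h2 : ((2 : Fin (k + 3)) : ℕ) = 2 := val_two' k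
  rw [← h] at h2
  simp at h2

lemma mk_one (k m : ℕ) (x y : Bool × Fin (m + 1)) : (mk k m x y 1).1 = x := by
  simp [mk]

lemma mk_two (k m : ℕ) (x y : Bool × Fin (m + 1)) : (mk k m x y 2).1 = y := by
  simp [mk, two_ne_one' k]

lemma mk_mem (k m : ℕ) (x y : Bool × Fin (m + 1)) (h : x.1 = y.1) : mk k m x y ∈ HH k m := by
  show (mk k m x y 1).1.1 = (mk k m x y 2).1.1
  rw [mk_one, mk_two, h]

lemma spanned (k m : ℕ) : Spanned (HH k m) := by
  intro i v
  by_cases h1 : i = 1
  · subst h1
    refine ⟨mk k m v.1 (v.1.1, 0), mk_mem _ _ _ _ rfl, ?_⟩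
    apply Subtype.ext
    exact mk_one _ _ _ _
  · by_cases h2 : i = 2
    · subst h2
      refine ⟨mk k m (v.1.1, 0) v.1, mk_mem _ _ _ _ rfl, ?_⟩
      apply Subtype.ext
      exact mk_two _ _ _ _
    · refine ⟨mk k m (false, 0) (false, 0), mk_mem _ _ _ _ rfl, ?_⟩
      apply Subtype.ext
      have hv : v.1 = (false, 0) := by
        rcases v.2 with h | h | h
        · exact h
        · exact absurd h h1
        · exact absurd h h2
      rw [hv]
      simp [mk, h1, h2]

lemma single (k m : ℕ) (i : Fin (k + 3)) (h1 : i ≠ 1) (h2 : i ≠ 2) (v w : W k m i) : v = w := by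
  apply Subtype.ext
  have hv : v.1 = (false, 0) := by
    rcases v.2 with h | h | h
    · exact h
    · exact absurd h h1
    · exact absurd h h2
  have hw : w.1 = (false, 0) := by
    rcases w.2 with h | h | h
    · exact h
    · exact absurd h h1
    · exact absurd h h2
  rw [hv, hw]

lemma intersecting (k m : ℕ) : Intersecting (HH k m) :=
  fun _ _ _ _ => ⟨0, single k m 0 (zero_ne_one' k) (zero_ne_two' k) _ _⟩

/-- a set of vertices that is a non-trivial cover -/
def CS (k m : ℕ) : Set (Σ i, W k m i) :=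
  {v | (v.1 = 1 ∧ v.2.1.1 = false) ∨ (v.1 = 2 ∧ v.2.1.1 = true)}

lemma exists_cover (k m : ℕ) : ∃ C, NTCover (HH k m) C := by
  classical
  have hfin : (CS k m).Finite := Set.toFinite _
  refine ⟨hfin.toFinset, ?_, ?_, ?_⟩
  · intro e he
    by_cases h : (e 1).1.1 = false
    · refine ⟨1, ?_⟩
      rw [Set.Finite.mem_toFinset]
      exact Or.inl ⟨rfl, h⟩
    · refine ⟨2, ?_⟩
      rw [Set.Finite.mem_toFinset]
      refine Or.inr ⟨rfl, ?_⟩
      have he' : (e 1).1.1 = (e 2).1.1 := he
      show (e 2).1.1 = true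
      rw [← he']
      simpa using h
  · intro e _
    refine ⟨0, ?_⟩
    rw [Set.Finite.mem_toFinset]
    rintro (⟨h, -⟩ | ⟨h, -⟩)
    · exact zero_ne_one' k h
    · exact zero_ne_two' k h
  · intro i
    by_cases h1 : i = 1
    · subst h1
      refine ⟨⟨(true, 0), Or.inr (Or.inl rfl)⟩, ?_⟩
      rw [Set.Finite.mem_toFinset]
      rintro (⟨-, h⟩ | ⟨h, -⟩)
      · simp at h
      · exact two_ne_one' k h.symm
    · by_cases h2 : i = 2
      · subst h2
        refine ⟨⟨(false, 0), Or.inl rfl⟩, ?_⟩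
        rw [Set.Finite.mem_toFinset]
        rintro (⟨h, -⟩ | ⟨-, h⟩)
        · exact two_ne_one' k h
        · simp at h
      · refine ⟨⟨(false, 0), Or.inl rfl⟩, ?_⟩
        rw [Set.Finite.mem_toFinset]
        rintro (⟨h, -⟩ | ⟨h, -⟩)
        · exact h1 h
        · exact h2 h

lemma cover_large (k m : ℕ) (C : Finset (Σ i, W k m i)) (hC : NTCover (HH k m) C) :
    2 * (m + 1) ≤ C.card := by
  classical
  obtain ⟨h1, h2, h3⟩ := hC
  have hsingle : ∀ i : Fin (k + 3), i ≠ 1 → i ≠ 2 → ∀ v : W k m i,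
      (⟨i, v⟩ : Σ i, W k m i) ∉ C := by
    intro i hi1 hi2 v
    obtain ⟨w, hw⟩ := h3 i
    rw [single k m i hi1 hi2 v w]
    exact hw
  have hall : ∀ x : Bool × Fin (m + 1), x ∈ C.image (fun v => v.2.1) := by
    intro x
    by_contra hx
    simp only [Finset.mem_image, not_exists, not_and] at hx
    -- some vertex `(b, y)` of side `2` is not in `C`, else `x` is attained
    have key : ∀ e ∈ HH k m, (e 1).1 = x → (e 2).1 = x → False := by
      intro e he e1 e2
      obtain ⟨i, hi⟩ := h1 e he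
      by_cases hi1 : i = 1
      · subst hi1
        exact hx _ hi e1
      · by_cases hi2 : i = 2
        · subst hi2
          exact hx _ hi e2
        · exact hsingle i hi1 hi2 _ hi
    exact key (mk k m x x) (mk_mem _ _ _ _ rfl) (mk_one _ _ _ _) (mk_two _ _ _ _)
  have hcard : (Finset.univ : Finset (Bool × Fin (m + 1))).card ≤
      (C.image (fun v => v.2.1)).card := by
    apply Finset.card_le_card
    intro x _
    exact hall x
  have h4 := hcard.trans Finset.card_image_le
  simpa using h4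

/-- **`f(r) = ∞` for every `r ≥ 3`** (and `f(2) = 0`, since for `r = 2` there is no non-trivial
vertex cover at all). -/
theorem result : f 2 = 0 ∧ ∀ r : ℕ, 3 ≤ r → f r = ⊤ := by
  constructor
  · rw [← le_zero_iff]
    unfold f
    refine iSup_le fun V => iSup_le fun _ => iSup_le fun H => iSup_le fun h => ?_
    obtain ⟨hS, hI, C, hC⟩ := h
    exact absurd hC (no_cover_two V H hS hI C)
  · intro r hr
    obtain ⟨k, rfl⟩ : ∃ k, r = k + 3 := ⟨r - 3, by omega⟩
    rw [ENat.eq_top_iff_forall_ge]
    intro m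
    have h1 : tauStar (HH k m) ≤ f (k + 3) :=
      le_iSup_of_le (W k m) (le_iSup_of_le inferInstance (le_iSup_of_le (HH k m)
        (le_iSup_of_le ⟨spanned k m, intersecting k m, exists_cover k m⟩ le_rfl)))
    refine le_trans ?_ h1
    unfold tauStar
    refine le_iInf fun C => le_iInf fun hC => ?_
    have := cover_large k m C hC
    exact_mod_cast (by omega : m ≤ C.card)

end Pool.Agent.Results.MP_2c613a_co.FInfinite
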