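import Mathlib
import Pool.Agent.R159.RPartite

/-!
# Linear growth when all sides have at least two vertices

If all sides have at least two vertices, an intersecting `r`-partite hypergraph (`r ≥ 3`) with a
non-trivial vertex cover has one of size at most `2r - 3`; and for every `r ≥ 4` there are such
hypergraphs all of whose non-trivial covers have at least `r / 2` vertices.
-/

namespace Pool.Agent.Results.MP_2c613a_co.LinearGrowth

open Pool.Agent.R159.RPartite

/-- the supremum of `tauStar H` over the intersecting `r`-partite hypergraphs `H` with finite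
sides, each with at least two vertices, with every vertex in an edge, that have a non-trivial
vertex cover. -/
noncomputable def f₂ (r : ℕ) : ℕ∞ :=
  ⨆ (V : Fin r → Type) (_ : ∀ i, Finite (V i)) (_ : ∀ i, 2 ≤ Nat.card (V i))
    (H : Set (∀ i, V i)) (_ : Spanned H ∧ Intersecting H ∧ ∃ C, NTCover H C), tauStar H

section upper

variable {r : ℕ} {V : Fin r → Type} [∀ i, Fintype (V i)] [∀ i, DecidableEq (V i)]
  (H : Set (∀ i, V i))

omit [∀ i, Fintype (V i)] [∀ i, DecidableEq (V i)] in
lemma mkCover (S : ∀ i, Finset (V i)) (i : Fin r) (hi : S i = ∅)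
    (hcov : ∀ h ∈ H, ∃ k, h k ∈ S k) (hside : ∀ k, ∃ v, v ∉ S k) :
    NTCover H (Finset.univ.sigma S) := by
  refine ⟨?_, ?_, ?_⟩
  · intro e he
    obtain ⟨k, hk⟩ := hcov e he
    exact ⟨k, by simpa using hk⟩
  · intro e _
    exact ⟨i, by simp [hi]⟩
  · intro k
    obtain ⟨v, hv⟩ := hside k
    exact ⟨v, by simpa using hv⟩

omit [∀ i, Fintype (V i)] in
lemma card_bound (S : ∀ i, Finset (V i)) (e g : ∀ i, V i) (i k₀ : Fin r) (hi : S i = ∅)
    (hei : e i ≠ g i) (hk : e k₀ = g k₀) (hS : ∀ k, S k ⊆ {e k, g k}) :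
    (Finset.univ.sigma S).card ≤ 2 * r - 3 := by
  rw [Finset.card_sigma]
  have hik : i ≠ k₀ := by
    rintro rfl
    exact hei hk
  have h1 : ∀ k ∈ (Finset.univ : Finset (Fin r)), (S k).card + ((if k = i then 2 else 0) +
      (if k = k₀ then 1 else 0)) ≤ 2 := by
    intro k _
    by_cases h1 : k = i
    · subst h1
      simp [hi, hik]
    · by_cases h2 : k = k₀
      · subst h2
        have h3 : (S k).card ≤ 1 := by
          refine (Finset.card_le_card (hS k)).trans ?_
          rw [hk]
          simp
        simp [h1]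
        omega
      · have h3 : (S k).card ≤ 2 := (Finset.card_le_card (hS k)).trans Finset.card_le_two
        simp [h1, h2]
        omega
  have h2 := Finset.sum_le_sum h1
  rw [Finset.sum_add_distrib, Finset.sum_add_distrib] at h2
  simp only [Finset.sum_ite_eq', Finset.mem_univ, if_true, Finset.sum_const, Finset.card_univ,
    Fintype.card_fin, smul_eq_mul] at h2
  omega

omit [∀ i, Fintype (V i)] in
/-- two edges which differ at `i` and whose union contains no other side -/
lemma claim1 (hI : Intersecting H) (hnt : ∀ i, ∀ u : V i, ∃ v : V i, v ≠ u)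
    (e g : ∀ i, V i) (he : e ∈ H) (hg : g ∈ H) (i : Fin r) (hi : e i ≠ g i)
    (hD : ∀ k, k ≠ i → e k = g k ∨ ∃ v, v ≠ e k ∧ v ≠ g k) :
    ∃ C : Finset (Σ i, V i), NTCover H C ∧ C.card ≤ 2 * r - 3 := by
  obtain ⟨k₀, hk₀⟩ := hI e he g hg
  let S : ∀ k, Finset (V k) := fun k => if k = i then ∅ else {e k, g k}
  have hSi : S i = ∅ := by simp [S]
  have hSk : ∀ k, k ≠ i → S k = {e k, g k} := by
    intro k hk
    simp [S, hk]
  refine ⟨Finset.univ.sigma S, mkCover H S i hSi ?_ ?_,
    card_bound S e g i k₀ hSi hi hk₀ ?_⟩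
  · intro h hh
    obtain ⟨k, hk⟩ := hI h hh e he
    obtain ⟨l, hl⟩ := hI h hh g hg
    by_cases h1 : k = i
    · by_cases h2 : l = i
      · exfalso
        subst h1
        subst h2
        exact hi (hk.symm.trans hl)
      · exact ⟨l, by rw [hSk l h2, hl]; simp⟩
    · exact ⟨k, by rw [hSk k h1, hk]; simp⟩
  · intro k
    by_cases h1 : k = i
    · subst h1
      exact ⟨e k, by rw [hSi]; simp⟩
    · rw [hSk k h1]
      rcases hD k h1 with h | ⟨v, hv1, hv2⟩
      · obtain ⟨v, hv⟩ := hnt k (e k)
        exact ⟨v, by rw [← h]; simp [hv]⟩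
      · exact ⟨v, by simp [hv1, hv2]⟩
  · intro k
    by_cases h1 : k = i
    · subst h1
      rw [hSi]
      simp
    · rw [hSk k h1]

/-- The upper bound. -/
lemma upper (hr : 3 ≤ r) (hS : Spanned H) (hI : Intersecting H)
    (hnt : ∀ i, ∀ u : V i, ∃ v : V i, v ≠ u) (C₀ : Finset (Σ i, V i)) (hC₀ : NTCover H C₀) :
    ∃ C : Finset (Σ i, V i), NTCover H C ∧ C.card ≤ 2 * r - 3 := by
  by_contra hno
  push Not at hno
  have hc : ∀ e ∈ H, ∀ g ∈ H, ∀ i, e i ≠ g i →
      ∃ k, k ≠ i ∧ e k ≠ g k ∧ ∀ v, v = e k ∨ v = g k := by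
    intro e he g hg i hi
    by_contra h
    push Not at h
    obtain ⟨C, hC, hC2⟩ := claim1 H hI hnt e g he hg i hi (by
      intro k hk
      by_cases hek : e k = g k
      · exact Or.inl hek
      · exact Or.inr (h k hk hek))
    exact absurd hC2 (not_le.mpr (hno C hC))
  by_cases hbin : ∀ i, ∀ u v w : V i, u = v ∨ u = w ∨ v = w
  · -- all sides have two vertices: any non-trivial cover has at most `r` elements
    have h1 : C₀.card ≤ r := by
      have h2 : Set.InjOn (fun v : Σ i, V i => v.1) C₀ := by
        rintro ⟨i, u⟩ hu ⟨j, v⟩ hv hij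
        have hij' : i = j := hij
        subst hij'
        obtain ⟨w, hw⟩ := hC₀.2.2 i
        rcases hbin i u v w with h | h | h
        · rw [h]
        · rw [h] at hu
          exact absurd hu hw
        · rw [h] at hv
          exact absurd hv hw
      have h3 := Finset.card_le_card_of_injOn (t := (Finset.univ : Finset (Fin r)))
        (fun v : Σ i, V i => v.1) (fun _ _ => by simp) h2
      simpa using h3
    have := hno C₀ hC₀
    omega
  · push Not at hbin
    obtain ⟨i, u, v, w, huv, huw, hvw⟩ := hbin
    obtain ⟨e, he, heu⟩ := hS i u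
    obtain ⟨g, hg, hgv⟩ := hS i v
    have hi : e i ≠ g i := by rw [heu, hgv]; exact huv
    obtain ⟨k₀, hk₀⟩ := hI e he g hg
    obtain ⟨j, hji, hj1, hj2⟩ := hc e he g hg i hi
    classical
    let D : Set (Fin r) := {k | e k ≠ g k ∧ ∀ v, v = e k ∨ v = g k}
    have hjD : j ∈ D := ⟨hj1, hj2⟩
    let S1 : ∀ k, Finset (V k) := fun k =>
      if k = i then ∅ else if k ∈ D then {g k} else {e k, g k}
    let S2 : ∀ k, Finset (V k) := fun k =>
      if k = i then ∅ else if k ∈ D then (if k = j then {e k} else {g k}) else {e k, g k}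
    have hS1i : S1 i = ∅ := by simp [S1]
    have hS2i : S2 i = ∅ := by simp [S2]
    have hS1D : ∀ k, k ≠ i → k ∈ D → S1 k = {g k} := by
      intro k h1 h2; simp [S1, h1, h2]
    have hS1n : ∀ k, k ≠ i → k ∉ D → S1 k = {e k, g k} := by
      intro k h1 h2; simp [S1, h1, h2]
    have hS2j : S2 j = {e j} := by simp [S2, hji, hjD]
    have hS2D : ∀ k, k ≠ i → k ∈ D → k ≠ j → S2 k = {g k} := by
      intro k h1 h2 h3; simp [S2, h1, h2, h3]
    have hS2n : ∀ k, k ≠ i → k ∉ D → S2 k = {e k, g k} := by
      intro k h1 h2; simp [S2, h1, h2]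
    have hfree : ∀ k, k ∉ D → ∃ v, v ∉ ({e k, g k} : Finset (V k)) := by
      intro k hk
      by_cases hek : e k = g k
      · obtain ⟨v, hv⟩ := hnt k (e k)
        exact ⟨v, by rw [← hek]; simp [hv]⟩
      · by_contra h
        push Not at h
        apply hk
        refine ⟨hek, fun v => ?_⟩
        simpa using h v
    -- neither is a cover
    have h1 : ∃ f1 ∈ H, ∀ k, f1 k ∉ S1 k := by
      by_contra hcon
      push Not at hcon
      have hcov : NTCover H (Finset.univ.sigma S1) := by
        refine mkCover H S1 i hS1i hcon ?_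
        intro k
        by_cases hki : k = i
        · subst hki; exact ⟨e k, by rw [hS1i]; simp⟩
        · by_cases hkD : k ∈ D
          · exact ⟨e k, by rw [hS1D k hki hkD]; simpa using hkD.1⟩
          · rw [hS1n k hki hkD]
            exact hfree k hkD
      refine absurd (card_bound S1 e g i k₀ hS1i hi hk₀ ?_) (not_le.mpr (hno _ hcov))
      intro k
      by_cases hki : k = i
      · subst hki; rw [hS1i]; simp
      · by_cases hkD : k ∈ D
        · rw [hS1D k hki hkD]; simp
        · rw [hS1n k hki hkD]
    have h2 : ∃ f2 ∈ H, ∀ k, f2 k ∉ S2 k := by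
      by_contra hcon
      push Not at hcon
      have hcov : NTCover H (Finset.univ.sigma S2) := by
        refine mkCover H S2 i hS2i hcon ?_
        intro k
        by_cases hki : k = i
        · subst hki; exact ⟨e k, by rw [hS2i]; simp⟩
        · by_cases hkD : k ∈ D
          · by_cases hkj : k = j
            · subst hkj
              exact ⟨g k, by rw [hS2j]; simpa using hkD.1.symm⟩
            · exact ⟨e k, by rw [hS2D k hki hkD hkj]; simpa using hkD.1⟩
          · rw [hS2n k hki hkD]
            exact hfree k hkD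
      refine absurd (card_bound S2 e g i k₀ hS2i hi hk₀ ?_) (not_le.mpr (hno _ hcov))
      intro k
      by_cases hki : k = i
      · subst hki; rw [hS2i]; simp
      · by_cases hkD : k ∈ D
        · by_cases hkj : k = j
          · subst hkj; rw [hS2j]; simp
          · rw [hS2D k hki hkD hkj]; simp
        · rw [hS2n k hki hkD]
    obtain ⟨f1, hf1, hf1'⟩ := h1
    obtain ⟨f2, hf2, hf2'⟩ := h2
    have e1 : f1 j = e j := by
      have := hf1' j
      rw [hS1D j hji hjD] at this
      rcases hj2 (f1 j) with h | h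
      · exact h
      · exact absurd h (by simpa using this)
    have e2 : f2 j = g j := by
      have := hf2' j
      rw [hS2j] at this
      rcases hj2 (f2 j) with h | h
      · exact absurd h (by simpa using this)
      · exact h
    obtain ⟨k, hkj, hk1, hk2⟩ := hc f1 hf1 f2 hf2 j (by rw [e1, e2]; exact hj1)
    by_cases hki : k = i
    · subst hki
      rcases hk2 u with a | a <;> rcases hk2 v with b | b <;> rcases hk2 w with c | c
      · exact huv (a.trans b.symm)
      · exact huv (a.trans b.symm)
      · exact huw (a.trans c.symm)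
      · exact hvw (b.trans c.symm)
      · exact hvw (b.trans c.symm)
      · exact huw (a.trans c.symm)
      · exact huv (a.trans b.symm)
      · exact huv (a.trans b.symm)
    · by_cases hkD : k ∈ D
      · have a1 : f1 k = e k := by
          have := hf1' k
          rw [hS1D k hki hkD] at this
          rcases hkD.2 (f1 k) with h | h
          · exact h
          · exact absurd h (by simpa using this)
        have a2 : f2 k = e k := by
          have := hf2' k
          rw [hS2D k hki hkD hkj] at this
          rcases hkD.2 (f2 k) with h | h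
          · exact h
          · exact absurd h (by simpa using this)
        exact hk1 (a1.trans a2.symm)
      · have a1 := hf1' k
        have a2 := hf2' k
        rw [hS1n k hki hkD] at a1
        rw [hS2n k hki hkD] at a2
        rcases hk2 (e k) with h | h
        · rw [← h] at a1; simp at a1
        · rw [← h] at a2; simp at a2

end upper

section lower

variable (p r : ℕ)

/-- the vertex of side `k` on the edge `(a, b)` -/
def φ (k : Fin r) (ab : ZMod p × ZMod p) : ZMod p × ZMod p :=
  if k.1 < p then (ab.1 * (k.1 : ZMod p) + ab.2, 0) else if k.1 = p then (ab.1, 0) else ab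

/-- the sides -/
abbrev VV (k : Fin r) : Type := Set.range (φ p r k)

/-- the edges -/
def edge (ab : ZMod p × ZMod p) : ∀ k, VV p r k := fun k => ⟨φ p r k ab, ⟨ab, rfl⟩⟩

/-- the hypergraph -/
def HL : Set (∀ k, VV p r k) := Set.range (edge p r)

lemma HL_spanned : Spanned (HL p r) := by
  rintro k ⟨-, ab, rfl⟩
  exact ⟨edge p r ab, ⟨ab, rfl⟩, rfl⟩

lemma HL_inter [Fact p.Prime] (hpr : p < r) : Intersecting (HL p r) := by
  rintro - ⟨⟨a, b⟩, rfl⟩ - ⟨⟨a', b'⟩, rfl⟩
  by_cases h : a = a'
  · refine ⟨⟨p, hpr⟩, Subtype.ext ?_⟩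
    simp [edge, φ, h]
  · have hne : a - a' ≠ 0 := sub_ne_zero.mpr h
    have hlt : ((b' - b) / (a - a')).val < p := ZMod.val_lt _
    refine ⟨⟨((b' - b) / (a - a')).val, hlt.trans hpr⟩, Subtype.ext ?_⟩
    simp only [edge, φ, hlt, if_true, Prod.mk.injEq, and_true]
    rw [ZMod.natCast_val, ZMod.cast_id]
    field_simp
    ring

lemma third [Fact p.Prime] (hp : 3 ≤ p) (k : Fin r) (u v : VV p r k) :
    ∃ w : VV p r k, w ≠ u ∧ w ≠ v := by
  classical
  have hcard : ({u.1.1, v.1.1} : Finset (ZMod p)).card < (Finset.univ : Finset (ZMod p)).card := by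
    have h1 : ({u.1.1, v.1.1} : Finset (ZMod p)).card ≤ 2 := Finset.card_le_two
    have h2 : (Finset.univ : Finset (ZMod p)).card = p := by
      rw [Finset.card_univ, ZMod.card]
    omega
  obtain ⟨t, -, ht⟩ := Finset.exists_mem_notMem_of_card_lt_card hcard
  simp only [Finset.mem_insert, Finset.mem_singleton, not_or] at ht
  refine ⟨⟨φ p r k (if k.1 < p then 0 else t, t), ⟨_, rfl⟩⟩, ?_, ?_⟩
  · intro h
    apply ht.1
    rw [← h]
    by_cases h1 : k.1 < p
    · simp [φ, h1]
    · by_cases h2 : k.1 = p <;> simp [φ, h1, h2]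
  · intro h
    apply ht.2
    rw [← h]
    by_cases h1 : k.1 < p
    · simp [φ, h1]
    · by_cases h2 : k.1 = p <;> simp [φ, h1, h2]

lemma fiber_card [Fact p.Prime] (k : Fin r) (y : ZMod p × ZMod p) :
    (Finset.univ.filter (fun ab : ZMod p × ZMod p => φ p r k ab = y)).card ≤ p := by
  classical
  have hp : (Finset.univ : Finset (ZMod p)).card = p := by
    rw [Finset.card_univ, ZMod.card]
  by_cases h2 : k.1 = p
  · calc (Finset.univ.filter (fun ab : ZMod p × ZMod p => φ p r k ab = y)).card
        ≤ (Finset.univ : Finset (ZMod p)).card := by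
          refine Finset.card_le_card_of_injOn (fun ab => ab.2) (fun _ _ => by simp) ?_
          intro x hx z hz hxz
          simp only [Finset.coe_filter, Finset.mem_univ, true_and] at hx hz
          have hx' : φ p r k x = y := hx
          have hz' : φ p r k z = y := hz
          have h3 := hx'.trans hz'.symm
          simp only [φ, h2, lt_irrefl, if_false, if_true, Prod.mk.injEq, and_true] at h3
          exact Prod.ext h3 hxz
      _ = p := hp
  · calc (Finset.univ.filter (fun ab : ZMod p × ZMod p => φ p r k ab = y)).card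
        ≤ (Finset.univ : Finset (ZMod p)).card := by
          refine Finset.card_le_card_of_injOn (fun ab => ab.1) (fun _ _ => by simp) ?_
          intro x hx z hz hxz
          simp only [Finset.coe_filter, Finset.mem_univ, true_and] at hx hz
          have hx' : φ p r k x = y := hx
          have hz' : φ p r k z = y := hz
          have h3 := hx'.trans hz'.symm
          have hxz' : x.1 = z.1 := hxz
          by_cases h1 : k.1 < p
          · simp only [φ, h1, if_true, Prod.mk.injEq, and_true] at h3
            rw [hxz'] at h3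
            exact Prod.ext hxz' (add_left_cancel h3)
          · simp only [φ, h1, h2, if_false] at h3
            exact h3
      _ = p := hp

lemma lower_cover [Fact p.Prime] (C : Finset (Σ k, VV p r k)) (hC : NTCover (HL p r) C) :
    p ≤ C.card := by
  classical
  have hp : 0 < p := (Fact.out : p.Prime).pos
  have h1 : (Finset.univ : Finset (ZMod p × ZMod p)) ⊆
      C.biUnion (fun v => Finset.univ.filter (fun ab => φ p r v.1 ab = v.2.1)) := by
    intro ab _
    obtain ⟨k, hk⟩ := hC.1 (edge p r ab) ⟨ab, rfl⟩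
    rw [Finset.mem_biUnion]
    refine ⟨_, hk, ?_⟩
    rw [Finset.mem_filter]
    exact ⟨Finset.mem_univ _, rfl⟩
  have h2 := (Finset.card_le_card h1).trans
    (Finset.card_biUnion_le_card_mul _ _ p (fun v _ => fiber_card p r v.1 v.2.1))
  rw [Finset.card_univ, Fintype.card_prod, ZMod.card] at h2
  exact Nat.le_of_mul_le_mul_right h2 hp

end lower

/-- **Linear growth.** Over the intersecting `r`-partite hypergraphs all of whose sides have at
least two vertices, the analogue `f₂` of `f` satisfies `f₂ r ≤ 2 r - 3` for `r ≥ 3` and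
`r / 2 ≤ f₂ r` for `r ≥ 4`. -/
theorem result :
    (∀ r : ℕ, 3 ≤ r → f₂ r ≤ ((2 * r - 3 : ℕ) : ℕ∞)) ∧
    (∀ r : ℕ, 4 ≤ r → (r : ℕ∞) ≤ 2 * f₂ r) := by
  constructor
  · intro r hr
    unfold f₂
    refine iSup_le fun V => iSup_le fun hV => iSup_le fun h2 => iSup_le fun H =>
      iSup_le fun h => ?_
    obtain ⟨hS, hI, C₀, hC₀⟩ := h
    classical
    have : ∀ i, Fintype (V i) := fun i => Fintype.ofFinite _
    have hnt : ∀ i, ∀ u : V i, ∃ v : V i, v ≠ u := by
      intro i u
      have : Nontrivial (V i) := by
        rw [← Finite.one_lt_card_iff_nontrivial]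
        exact h2 i
      exact exists_ne u
    obtain ⟨C, hC, hC2⟩ := upper H hr hS hI hnt C₀ hC₀
    refine (iInf_le_of_le C (iInf_le_of_le hC le_rfl)).trans ?_
    exact_mod_cast hC2
  · intro r hr
    obtain ⟨p, hp, hp3, hpr, hrp⟩ : ∃ p : ℕ, p.Prime ∧ 3 ≤ p ∧ p < r ∧ r ≤ 2 * p := by
      by_cases h4 : r = 4
      · exact ⟨3, Nat.prime_three, le_rfl, by omega, by omega⟩
      · obtain ⟨p, hp, h1, h2⟩ := Nat.exists_prime_lt_and_le_two_mul ((r - 1) / 2) (by omega)
        exact ⟨p, hp, by omega, by omega, by omega⟩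
    have : Fact p.Prime := ⟨hp⟩
    have h1 : tauStar (HL p r) ≤ f₂ r := by
      unfold f₂
      refine le_iSup_of_le (VV p r) (le_iSup_of_le inferInstance (le_iSup_of_le ?_
        (le_iSup_of_le (HL p r) (le_iSup_of_le ?_ le_rfl))))
      · intro k
        have := third p r hp3 k
        have u : VV p r k := ⟨φ p r k (0, 0), ⟨_, rfl⟩⟩
        obtain ⟨w, hw, -⟩ := this u u
        have : Nontrivial (VV p r k) := ⟨w, u, hw⟩
        exact Finite.one_lt_card_iff_nontrivial.mpr this
      · refine ⟨HL_spanned p r, HL_inter p r hpr, ?_⟩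
        classical
        have : ∀ k, Fintype (VV p r k) := fun k => Fintype.ofFinite _
        obtain ⟨C, hC, -⟩ := claim1 (HL p r) (HL_inter p r hpr)
          (fun k u => by obtain ⟨w, hw, -⟩ := third p r hp3 k u u; exact ⟨w, hw⟩)
          (edge p r (0, 0)) (edge p r (0, 1)) ⟨_, rfl⟩ ⟨_, rfl⟩ ⟨0, by omega⟩ (by
            intro h
            have h' := congrArg (fun x => x.1.1) h
            have hp0 : 0 < p := by omega
            simp [edge, φ, hp0] at h')
          (fun k _ => Or.inr (third p r hp3 k _ _))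
        exact ⟨C, hC⟩
    have h2 : (p : ℕ∞) ≤ tauStar (HL p r) := by
      unfold tauStar
      refine le_iInf fun C => le_iInf fun hC => ?_
      exact_mod_cast lower_cover p r C hC
    calc (r : ℕ∞) ≤ ((2 * p : ℕ) : ℕ∞) := by exact_mod_cast hrp
      _ = 2 * (p : ℕ∞) := by push_cast; rfl
      _ ≤ 2 * f₂ r := by
        gcongr
        exact h2.trans h1

end Pool.Agent.Results.MP_2c613a_co.LinearGrowth
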